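import Mathlib

set_option autoImplicit false

namespace Pool.Agent.Results.MP_8dd099_nt.Infinite

open Finset

/-- `KL(n) = ∑_{d ∣ n} d log (d / (2 φ(d)))`. -/
noncomputable def KL (n : ℕ) : ℝ :=
  ∑ d ∈ n.divisors, (d : ℝ) * Real.log ((d : ℝ) / (2 * (Nat.totient d : ℝ)))

lemma sum_div_mul {M : Type*} [AddCommMonoid M] (m p : ℕ) (hm : m ≠ 0) (hp : p.Prime)
    (hpm : ¬ p ∣ m) (F : ℕ → M) :
    ∑ d ∈ (m * p).divisors, F d = ∑ d ∈ m.divisors, F d + ∑ d ∈ m.divisors, F (d * p) := by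
  have h1 : (m * p).divisors = m.divisors ∪ m.divisors.image (· * p) := by
    ext d
    simp only [Nat.mem_divisors, mem_union, mem_image, ne_eq, mul_eq_zero, hm, hp.ne_zero, or_self,
      not_false_eq_true, and_true]
    constructor
    · intro h
      by_cases hd : p ∣ d
      · obtain ⟨e, rfl⟩ := hd
        right
        refine ⟨e, ?_, mul_comm _ _⟩
        rw [mul_comm p e] at h
        exact Nat.dvd_of_mul_dvd_mul_right hp.pos h
      · left
        exact ((Nat.coprime_comm.1 ((Nat.Prime.coprime_iff_not_dvd hp).2 hd))).dvd_of_dvd_mul_right h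
    · rintro (h | ⟨e, he, rfl⟩)
      · exact h.mul_right p
      · exact Nat.mul_dvd_mul_right he p
  rw [h1, sum_union, sum_image]
  · intro a _ b _ h
    exact Nat.eq_of_mul_eq_mul_right hp.pos h
  · rw [disjoint_left]
    intro d hd hd2
    obtain ⟨e, -, rfl⟩ := mem_image.1 hd2
    exact hpm ((Dvd.intro_left e rfl).trans (Nat.dvd_of_mem_divisors hd))

lemma KL_mul (m p : ℕ) (hm : m ≠ 0) (hp : p.Prime) (hpm : ¬ p ∣ m) :
    (1 + p) * KL m + ((∑ d ∈ m.divisors, d : ℕ) : ℝ) ≤ KL (m * p) := by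
  unfold KL
  rw [sum_div_mul m p hm hp hpm, add_mul, one_mul, add_assoc, mul_sum, Nat.cast_sum, ← sum_add_distrib]
  refine add_le_add le_rfl (sum_le_sum fun d hd => ?_)
  have hd0 : 0 < d := Nat.pos_of_mem_divisors hd
  have hcop : d.Coprime p := Nat.coprime_comm.1 ((Nat.Prime.coprime_iff_not_dvd hp).2
    fun h => hpm (h.trans (Nat.dvd_of_mem_divisors hd)))
  have hφ : (0 : ℝ) < Nat.totient d := by exact_mod_cast Nat.totient_pos.2 hd0
  have hp2 : (2 : ℝ) ≤ p := by exact_mod_cast hp.two_le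
  have hdR : (0 : ℝ) < d := by exact_mod_cast hd0
  rw [Nat.totient_mul hcop, Nat.totient_prime hp]
  push_cast [Nat.cast_sub hp.one_le]
  have e : (d : ℝ) * p / (2 * (Nat.totient d * ((p : ℝ) - 1))) =
      (d / (2 * Nat.totient d)) * (p / (p - 1)) := by
    have : (p : ℝ) - 1 ≠ 0 := by linarith
    field_simp
  have hpos : (0 : ℝ) < p / (p - 1) := div_pos (by linarith) (by linarith)
  rw [e, Real.log_mul (by positivity) hpos.ne']
  have h1 := Real.one_sub_inv_le_log_of_pos hpos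
  have h2 : 1 - ((p : ℝ) / (p - 1))⁻¹ = 1 / p := by
    have : (p : ℝ) - 1 ≠ 0 := by linarith
    field_simp
    ring
  rw [h2] at h1
  have h3 : 1 ≤ (p : ℝ) * Real.log (p / (p - 1)) := by
    have := mul_le_mul_of_nonneg_left h1 (by linarith : (0 : ℝ) ≤ p)
    rwa [mul_one_div_cancel (by linarith)] at this
  nlinarith

lemma KL_two_pow (k : ℕ) : KL (2 ^ k) = - Real.log 2 := by
  unfold KL
  rw [Nat.sum_divisors_prime_pow Nat.prime_two, sum_range_succ', sum_eq_zero]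
  · simp
  · intro i _
    rw [Nat.totient_prime_pow_succ Nat.prime_two]
    push_cast
    have : (2 : ℝ) ^ (i + 1) / (2 * (2 ^ i * 1)) = 1 := by
      field_simp
      ring
    rw [this]
    simp

lemma sigma_two_pow (k : ℕ) : ∑ d ∈ (2 ^ k).divisors, d + 1 = 2 * 2 ^ k := by
  rw [Nat.sum_divisors_prime_pow Nat.prime_two]
  induction k with
  | zero => simp
  | succ k ih => rw [sum_range_succ, pow_succ]; omega

lemma sigma_mul (m p : ℕ) (hm : m ≠ 0) (hp : p.Prime) (hpm : ¬ p ∣ m) :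
    ∑ d ∈ (m * p).divisors, d = (∑ d ∈ m.divisors, d) * (p + 1) := by
  rw [sum_div_mul m p hm hp hpm, ← sum_mul]
  ring

lemma exists_n (k : ℕ) (hk : 5 ≤ k) : ∃ n : ℕ, n ≠ 0 ∧ ∑ d ∈ n.divisors, d < 2 * n ∧ 0 ≤ KL n ∧
    ∀ d, d ∣ n → d < 2 ^ k → ∃ j, d = 2 ^ j := by
  have hs := sigma_two_pow k
  set N := ∑ d ∈ (2 ^ k).divisors, d with hN
  have h32 : 32 ≤ 2 ^ k := by
    calc 32 = 2 ^ 5 := by norm_num
      _ ≤ 2 ^ k := Nat.pow_le_pow_right (by norm_num) hk
  obtain ⟨q, hq, hq1, hq2⟩ := Nat.exists_prime_lt_and_le_two_mul N (by omega)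
  have hq2k : ¬ q ∣ 2 ^ k := fun h => by
    have := Nat.le_of_dvd (by omega) h
    omega
  have hm0 : 2 ^ k * q ≠ 0 := mul_ne_zero (by omega) hq.ne_zero
  have hσ := sigma_mul (2 ^ k) q (by omega) hq hq2k
  have hK := KL_mul (2 ^ k) q (by omega) hq hq2k
  rw [KL_two_pow, ← hN] at hK
  rw [← hN] at hσ
  have hdiv : ∀ (m p : ℕ), p.Prime → 2 ^ k ≤ p → (∀ d, d ∣ m → d < 2 ^ k → ∃ j, d = 2 ^ j) →
      ∀ d, d ∣ m * p → d < 2 ^ k → ∃ j, d = 2 ^ j := by
    intro m p hp hp2 h d hd hlt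
    refine h d ?_ hlt
    rcases Nat.eq_zero_or_pos d with rfl | hd0
    · have := Nat.eq_zero_of_zero_dvd hd
      rcases mul_eq_zero.1 this with h | h
      · rw [h]
      · exact absurd h hp.ne_zero
    refine (Nat.coprime_comm.1 ((Nat.Prime.coprime_iff_not_dvd hp).2 fun h => ?_)).dvd_of_dvd_mul_right hd
    have := Nat.le_of_dvd hd0 h
    omega
  have hd1 : ∀ d, d ∣ 2 ^ k * q → d < 2 ^ k → ∃ j, d = 2 ^ j := by
    refine hdiv _ q hq (by omega) fun d hd _ => ?_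
    obtain ⟨j, -, hj⟩ := (Nat.dvd_prime_pow Nat.prime_two).1 hd
    exact ⟨j, hj⟩
  have hdef : 2 * (2 ^ k * q) = N * (q + 1) + (q - N) := by
    obtain ⟨t, rfl⟩ := Nat.exists_eq_add_of_lt hq1
    rw [← mul_assoc, ← hs, show N + t + 1 - N = t + 1 by omega]
    ring
  by_cases hpos : 0 ≤ KL (2 ^ k * q)
  · exact ⟨2 ^ k * q, hm0, by omega, hpos, hd1⟩
  push Not at hpos
  set δ := q - N with hδ
  have hδ0 : 0 < δ := by omega
  set S := N * (q + 1) with hS
  have hA : q + 1 ≤ S / δ := by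
    rw [Nat.le_div_iff_mul_le hδ0, hS, mul_comm]
    exact Nat.mul_le_mul_right _ (by omega)
  obtain ⟨p, hp, hp1, hp2⟩ := Nat.exists_prime_lt_and_le_two_mul (S / δ) (by omega)
  have hpm : ¬ p ∣ 2 ^ k * q := fun h => by
    rcases (Nat.Prime.dvd_mul hp).1 h with h | h
    · have := Nat.le_of_dvd (by omega) h
      omega
    · have := Nat.le_of_dvd hq.pos h
      omega
  have hσ2 := sigma_mul (2 ^ k * q) p hm0 hp hpm
  have hK2 := KL_mul (2 ^ k * q) p hm0 hp hpm
  rw [hσ] at hσ2 hK2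
  have hlt : S < p * δ := (Nat.div_lt_iff_lt_mul hδ0).1 hp1
  have hle : p * δ ≤ 2 * S := by
    calc p * δ ≤ 2 * (S / δ) * δ := Nat.mul_le_mul_right _ hp2
      _ = 2 * (S / δ * δ) := by ring
      _ ≤ 2 * S := Nat.mul_le_mul_left _ (Nat.div_mul_le_self _ _)
  refine ⟨2 ^ k * q * p, mul_ne_zero hm0 hp.ne_zero, ?_, ?_, hdiv _ p hp (by omega) hd1⟩
  · rw [hσ2, ← mul_assoc, hdef]
    nlinarith
  · refine le_trans ?_ hK2
    have hl := Real.log_two_lt_d9
    have hN63 : (63 : ℝ) ≤ N := by exact_mod_cast (by omega : 63 ≤ N)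
    have hqR : (q : ℝ) = N + δ := by exact_mod_cast (by omega : q = N + δ)
    have hδN : (δ : ℝ) ≤ N := by exact_mod_cast (by omega : δ ≤ N)
    have hδR : (0 : ℝ) < δ := by exact_mod_cast hδ0
    have hleR : (p : ℝ) * δ ≤ 2 * S := by exact_mod_cast hle
    have hSR : (S : ℝ) = N * (q + 1) := by exact_mod_cast hS
    have hp0 : (0 : ℝ) ≤ p := by positivity
    set u := - KL (2 ^ k * q)
    have hu0 : 0 < u := by simp only [u]; linarith
    have hu : u ≤ 0.7 * (1 + q) - N := by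
      simp only [u]
      nlinarith
    have hu1 : u ≤ 0.45 * δ := by
      rw [hqR] at hu
      nlinarith
    have hu2 : u ≤ 0.1 * S := by
      rw [hSR]
      nlinarith
    have hu3 : p * u ≤ 0.9 * S := by nlinarith
    have : KL (2 ^ k * q) = -u := by simp [u]
    rw [this]
    nlinarith

/-- There are infinitely many deficient KL-primitive numbers. -/
theorem result :
    {n : ℕ | 0 < n ∧ ArithmeticFunction.sigma 1 n < 2 * n ∧ 0 ≤ KL n ∧
      ∀ d : ℕ, 0 < d → d ∣ n → d < n → KL d < 0}.Infinite := by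
  classical
  refine Set.infinite_of_forall_exists_gt fun B => ?_
  obtain ⟨n, hn0, hdef, hK, hdiv⟩ := exists_n (B + 5) (by omega)
  have hex : ∃ d, d ∣ n ∧ 0 ≤ KL d := ⟨n, dvd_rfl, hK⟩
  obtain ⟨hd1, hd2⟩ := Nat.find_spec hex
  set e := Nat.find hex
  have he0 : e ≠ 0 := fun h => hn0 (Nat.eq_zero_of_zero_dvd (h ▸ hd1))
  refine ⟨e, ⟨Nat.pos_of_ne_zero he0, ?_, hd2, fun d _ hd hlt => ?_⟩, ?_⟩
  · have h1 := Nat.abundancyIndex_le_of_dvd hn0 hd1
    unfold Nat.abundancyIndex at h1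
    have h2 : ((∑ i ∈ n.divisors, i : ℕ) : ℚ) / n < 2 := by
      rw [div_lt_iff₀ (by exact_mod_cast Nat.pos_of_ne_zero hn0)]
      exact_mod_cast hdef
    have h3 := h1.trans_lt h2
    rw [div_lt_iff₀ (by exact_mod_cast Nat.pos_of_ne_zero he0)] at h3
    rw [ArithmeticFunction.sigma_one_apply]
    exact_mod_cast h3
  · have := Nat.find_min hex hlt
    push Not at this
    exact this (hd.trans hd1)
  · by_contra hle
    have h1 : B < 2 ^ (B + 5) := (Nat.lt_two_pow_self).trans_le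
      (Nat.pow_le_pow_right (by norm_num) (by omega))
    obtain ⟨j, hj⟩ := hdiv e hd1 (by omega)
    rw [hj, KL_two_pow] at hd2
    have := Real.log_two_gt_d9
    linarith

end Pool.Agent.Results.MP_8dd099_nt.Infinite
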